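import Mathlib
import Pool.Agent.Helper578.JD.Comp

/-!
# Isolated paths of computable, computably bounded trees are computable
-/

set_option autoImplicit false

namespace Pool.Agent.Y982.CB

open Pool.Agent.Helper578.JD

/-- The initial segment of `x` of length `n`. -/
def res (x : ℕ → ℕ) (n : ℕ) : List ℕ := (List.range n).map x

theorem res_succ (x : ℕ → ℕ) (n : ℕ) : res x (n + 1) = res x n ++ [x n] := by
  simp [res, List.range_succ]

theorem res_length (x : ℕ → ℕ) (n : ℕ) : (res x n).length = n := by simp [res]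

theorem res_get (x : ℕ → ℕ) {n i : ℕ} (h : i < n) : (res x n)[i]? = some (x i) := by
  simp [res, h]

/-- All strings of length `j` whose entries are below the bounds given by `g`. -/
def nodes (g : List ℕ → ℕ) : ℕ → List (List ℕ)
  | 0 => [[]]
  | j + 1 => (nodes g j).flatMap fun σ => (List.range (g σ)).map fun v => σ ++ [v]

theorem nodes_length {g : List ℕ → ℕ} : ∀ {j : ℕ} {σ : List ℕ}, σ ∈ nodes g j → σ.length = j := by
  intro j
  induction j with
  | zero => intro σ h; simp [nodes] at h; simp [h]
  | succ j ih =>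
    intro σ h
    rw [nodes, List.mem_flatMap] at h
    obtain ⟨τ, h1, h2⟩ := h
    obtain ⟨v, _, rfl⟩ := List.mem_map.1 h2
    simp [ih h1]

theorem comp_nodes {g : List ℕ → ℕ} (hgc : Computable g) : Computable (nodes g) := by
  have hin : Primrec fun z : List ℕ × ℕ => (List.range z.2).map fun v => z.1 ++ [v] := by
    refine Primrec.list_map (Primrec.list_range.comp Primrec.snd) ?_
    exact (Primrec.list_append.comp (Primrec.fst.comp Primrec.fst)
      (Primrec.list_cons.comp Primrec.snd (Primrec.const []))).to₂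
  have hstep : Computable fun L : List (List ℕ) =>
      L.foldl (fun acc σ => acc ++ (List.range (g σ)).map fun v => σ ++ [v]) [] := by
    refine RE.list_foldl (f := fun L : List (List ℕ) => L) (g := fun _ => ([] : List (List ℕ)))
      (h := fun _ (y : List (List ℕ) × List ℕ) =>
        y.1 ++ (List.range (g y.2)).map fun v => y.2 ++ [v]) Computable.id (Computable.const []) ?_
    refine RE.cappend (by fun_prop) ?_
    exact hin.to_comp.comp (f := fun z : List ℕ × ℕ => (List.range z.2).map fun v => z.1 ++ [v])
      (g := fun w : List (List ℕ) × (List (List ℕ) × List ℕ) => (w.2.2, g w.2.2)) (by fun_prop)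
  have h := Computable.nat_rec (f := fun n : ℕ => n) (g := fun _ : ℕ => ([[]] : List (List ℕ)))
    (h := fun (_ : ℕ) (y : ℕ × List (List ℕ)) =>
      y.2.foldl (fun acc σ => acc ++ (List.range (g σ)).map fun v => σ ++ [v]) [])
    Computable.id (Computable.const _) (hstep.comp (Computable.snd.comp Computable.snd))
  refine h.of_eq fun n => ?_
  induction n with
  | zero => rfl
  | succ n ih =>
    have h1 : ∀ (L : List (List ℕ)) (acc : List (List ℕ)),
        L.foldl (fun acc σ => acc ++ (List.range (g σ)).map fun v => σ ++ [v]) acc =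
        acc ++ L.flatMap fun σ => (List.range (g σ)).map fun v => σ ++ [v] := by
      intro L
      induction L with
      | nil => intro acc; simp
      | cons σ L ih => intro acc; rw [List.foldl_cons, ih, List.flatMap_cons, List.append_assoc]
    rw [nodes, ← ih]
    exact (h1 _ []).trans (List.nil_append _)

/-- Compactness. -/
theorem koenig (R : ℕ → List ℕ → Prop) (b : ℕ → ℕ)
    (hc : ∀ L, ∃ y : ℕ → ℕ, (∀ i, y i ≤ b i) ∧ ∀ j ≤ L, R j (res y j)) :
    ∃ y : ℕ → ℕ, ∀ j, R j (res y j) := by
  let K : ℕ → Set (∀ i, Fin (b i + 1)) := fun n =>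
    {y | ∀ j ≤ n, R j (res (fun i => (y i : ℕ)) j)}
  have hcont : ∀ j, Continuous (fun y : ∀ i, Fin (b i + 1) =>
      Encodable.encode (res (fun i => (y i : ℕ)) j)) := by
    intro j
    induction j with
    | zero => exact continuous_const
    | succ j ih =>
      have h1 : Continuous (fun y : ∀ i, Fin (b i + 1) => ((y j : ℕ))) :=
        (continuous_of_discreteTopology (f := fun v : Fin (b j + 1) => (v : ℕ))).comp
          (continuous_apply j)
      have h2 : Continuous (fun w : ℕ × ℕ =>
        Encodable.encode (((Encodable.decode (α := List ℕ) w.1).getD []) ++ [w.2])) :=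
        continuous_of_discreteTopology
      refine (h2.comp (ih.prodMk h1)).congr fun y => ?_
      simp only [Function.comp_apply, Encodable.encodek, Option.getD_some]
      rw [res_succ]
  have hcl : ∀ n, IsClosed (K n) := by
    intro n
    have : K n = ⋂ j, ⋂ (_ : j ≤ n), {y | ∃ τ, Encodable.encode (res (fun i => (y i : ℕ)) j) =
        Encodable.encode τ ∧ R j τ} := by
      ext y
      simp only [K, Set.mem_ofPred_eq, Set.mem_iInter]
      refine forall_congr' fun j => forall_congr' fun _ => ?_
      constructor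
      · intro h
        exact ⟨_, rfl, h⟩
      · rintro ⟨τ, h1, h2⟩
        rw [Encodable.encode_injective h1]
        exact h2
    rw [this]
    exact isClosed_iInter fun j => isClosed_iInter fun _ =>
      (isClosed_discrete {s | ∃ τ, s = Encodable.encode τ ∧ R j τ}).preimage (hcont j)
  have hne : ∀ n, (K n).Nonempty := by
    intro n
    obtain ⟨y, h1, h2⟩ := hc n
    exact ⟨fun i => ⟨y i, Nat.lt_succ_of_le (h1 i)⟩, fun j hj => h2 j hj⟩
  obtain ⟨y, hy⟩ := IsCompact.nonempty_iInter_of_sequence_nonempty_isCompact_isClosed K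
    (fun n y hy j hj => hy j (by omega)) hne (hcl 0).isCompact hcl
  rw [Set.mem_iInter] at hy
  exact ⟨fun i => y i, fun j => hy j j le_rfl⟩

section tree

variable {T : Set (List ℕ)} {g : List ℕ → ℕ} (hcl : ∀ σ τ, σ <+: τ → τ ∈ T → σ ∈ T)
  (hg : ∀ σ i, σ ++ [i] ∈ T → i < g σ)

include hcl hg in
theorem mem_nodes : ∀ {σ : List ℕ}, σ ∈ T → σ ∈ nodes g σ.length := by
  intro σ
  induction σ using List.reverseRecOn with
  | nil => intro _; simp [nodes]
  | append_singleton σ v ih =>
    intro h
    rw [List.length_append, List.length_singleton, nodes, List.mem_flatMap]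
    exact ⟨σ, ih (hcl _ _ (List.prefix_append _ _) h),
      List.mem_map.2 ⟨v, List.mem_range.2 (hg _ _ h), rfl⟩⟩

include hcl hg in
theorem entry_le {σ : List ℕ} (h : σ ∈ T) {i : ℕ} (hi : i < σ.length) :
    σ[i] ≤ ((nodes g i).map g).sum := by
  have h1 : σ.take i ++ [σ[i]] ∈ T := by
    rw [List.take_concat_get' σ i hi]
    exact hcl _ _ (List.take_prefix _ _) h
  have h2 := hg _ _ h1
  have h3 : σ.take i ∈ T := hcl _ _ (List.take_prefix _ _) h
  have h4 := mem_nodes hcl hg h3
  rw [List.length_take, min_eq_left hi.le] at h4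
  have h5 : g (σ.take i) ≤ ((nodes g i).map g).sum :=
    List.single_le_sum (fun _ _ => Nat.zero_le _) _ (List.mem_map_of_mem (f := g) h4)
  omega

include hcl hg in
/-- **Isolated paths are computable.** -/
theorem computable_of_isolated (hT : ComputablePred (fun σ => σ ∈ T)) (hgc : Computable g)
    {x : ℕ → ℕ} (hx : ∀ n, res x n ∈ T) (N : ℕ)
    (hN : ∀ y : ℕ → ℕ, (∀ n, res y n ∈ T) → (∀ i < N, y i = x i) → y = x) : Computable x := by
  refine RE.computable_of_graph ?_
  have h1 : REPred fun z : ℕ × ℕ => ∃ L, ∀ σ ∈ nodes g (L + N),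
      σ ∉ T ∨ (∃ i, i < N ∧ σ[i]? ≠ (res x N)[i]?) ∨ σ[z.1]? = some z.2 := by
    refine RE.exN (p := fun (z : ℕ × ℕ) L => ∀ σ ∈ nodes g (L + N),
      σ ∉ T ∨ (∃ i, i < N ∧ σ[i]? ≠ (res x N)[i]?) ∨ σ[z.1]? = some z.2) ?_
    refine RE.all_mem (p := fun (z : (ℕ × ℕ) × ℕ) (σ : List ℕ) =>
      σ ∉ T ∨ (∃ i, i < N ∧ σ[i]? ≠ (res x N)[i]?) ∨ σ[z.1.1]? = some z.1.2) ?_ ?_
    · refine RE.or ?_ (RE.or ?_ ?_)
      · exact RE.comp (p := fun σ : List ℕ => σ ∉ T) hT.not.to_re (Computable.snd)
      · refine RE.exN (p := fun (z : ((ℕ × ℕ) × ℕ) × List ℕ) i =>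
          i < N ∧ z.2[i]? ≠ (res x N)[i]?) ?_
        refine RE.and (RE.lt (by fun_prop) (by fun_prop)) (RE.ne (by fun_prop) ?_)
        exact RE.cgetElem (RE.cconst (res x N)) (by fun_prop)
      · exact RE.eq (by fun_prop) (by fun_prop)
    · have := comp_nodes hgc
      fun_prop
  refine h1.of_eq fun z => ?_
  obtain ⟨n, v⟩ := z
  show (∃ L, ∀ σ ∈ nodes g (L + N),
      σ ∉ T ∨ (∃ i, i < N ∧ σ[i]? ≠ (res x N)[i]?) ∨ σ[n]? = some v) ↔ x n = v
  constructor
  · rintro ⟨L, hL⟩
    have h2 : res x (L + N) ∈ nodes g (L + N) := by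
      have := mem_nodes hcl hg (hx (L + N))
      rwa [res_length] at this
    rcases hL _ h2 with h | ⟨i, hi, h⟩ | h
    · exact absurd (hx _) h
    · rw [res_get x (by omega), res_get x hi] at h
      exact absurd rfl h
    · by_cases hn : n < L + N
      · rw [res_get x hn] at h
        exact Option.some.inj h
      · rw [List.getElem?_eq_none (by rw [res_length]; omega)] at h
        cases h
  · rintro rfl
    by_contra hcon
    push Not at hcon
    obtain ⟨y, hy⟩ := koenig (fun j τ => τ ∈ T ∧ (∀ i < N, i < j → τ[i]? = some (x i)) ∧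
      (n < j → τ[n]? ≠ some (x n))) (fun i => ((nodes g i).map g).sum) (by
        intro L
        obtain ⟨σ, h1, h2, h3, h4⟩ := hcon (L + n + 1)
        have hlen := nodes_length h1
        refine ⟨fun i => σ.getD i 0, fun i => ?_, fun j hj => ?_⟩
        · by_cases hi : i < σ.length
          · show σ.getD i 0 ≤ _
            rw [List.getD_eq_getElem _ _ hi]
            exact entry_le hcl hg h2 hi
          · show σ.getD i 0 ≤ _
            rw [List.getD_eq_default _ _ (by omega)]
            exact Nat.zero_le _
        · have hres : res (fun i => σ.getD i 0) j = σ.take j := by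
            apply List.ext_getElem?
            intro i
            by_cases hi : i < j
            · rw [res_get _ hi, List.getElem?_take_of_lt hi,
                List.getElem?_eq_getElem (by omega), List.getD_eq_getElem _ _ (by omega)]
            · rw [List.getElem?_eq_none (by rw [res_length]; omega),
                List.getElem?_eq_none (by rw [List.length_take]; omega)]
          simp only [hres]
          refine ⟨hcl _ _ (List.take_prefix _ _) h2, fun i hi hij => ?_, fun hn => ?_⟩
          · rw [List.getElem?_take_of_lt hij, h3 i hi, res_get x hi]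
          · rw [List.getElem?_take_of_lt hn]
            exact h4)
    have h5 : ∀ n, res y n ∈ T := fun n => (hy n).1
    have h6 : ∀ i < N, y i = x i := by
      intro i hi
      have := (hy (i + 1)).2.1 i hi (by omega)
      rw [res_get y (by omega)] at this
      exact Option.some.inj this
    have h7 := hN y h5 h6
    have h8 := (hy (n + 1)).2.2 (by omega)
    rw [res_get y (by omega), h7] at h8
    exact h8 rfl

include hcl hg in
/-- The members of a finite computably bounded `Π⁰₁` class are computable. -/
theorem computable_of_finite (hT : ComputablePred (fun σ => σ ∈ T)) (hgc : Computable g)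
    (hfin : {y : ℕ → ℕ | ∀ n, res y n ∈ T}.Finite) {x : ℕ → ℕ} (hx : ∀ n, res x n ∈ T) :
    Computable x := by
  have h1 : ∀ y : ℕ → ℕ, ∃ m, y ≠ x → ∃ i < m, y i ≠ x i := by
    intro y
    by_cases h : y = x
    · exact ⟨0, fun h' => absurd h h'⟩
    · obtain ⟨i, hi⟩ := Function.ne_iff.1 h
      exact ⟨i + 1, fun _ => ⟨i, by omega, hi⟩⟩
  choose m hm using h1
  refine computable_of_isolated hcl hg hT hgc hx (hfin.toFinset.sup m) fun y hy hyx => ?_
  by_contra hne
  obtain ⟨i, hi, hi2⟩ := hm y hne
  have h2 : m y ≤ hfin.toFinset.sup m := Finset.le_sup (f := m) (hfin.mem_toFinset.2 hy)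
  exact hi2 (hyx i (by omega))

end tree

end Pool.Agent.Y982.CB
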